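import Pool.Agent.H37.CP.Targets

/-!
# REQ: equations of `rval` and `rdep` (helper82, board cpe_modules)
-/

set_option autoImplicit false

namespace Pool.Agent.H82.CPE

open Finset Pool.Agent.H37.CP
open Pool.Agent.H1.LP (Clause viol Loc Sys supp ip)

theorem pf_REQ : S_REQ := by
  intro n g i
  refine ⟨?_, ?_, ?_, ?_⟩
  · intro r h
    refine ⟨fun F => ?_, ?_⟩
    · rw [rval, h]
    · rw [rdep, h]
  · intro C h
    refine ⟨fun F => ⟨fun hC => ?_, fun hC => ?_⟩, ?_⟩
    · rw [rval, h]
      exact if_pos hC
    · rw [rval, h]
      exact if_neg hC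
    · rw [rdep, h]
  · intro f hf j l h
    refine ⟨fun F => ?_, ?_⟩
    · rw [rval, h]
    · rw [rdep, h]
  · induction i using Nat.strong_induction_on with
    | _ i ih =>
      rw [rdep]
      cases h : g i with
      | cst r => simp
      | inp C => simp
      | op f hf j l =>
        have h1 := ih j.1 j.2
        have h2 := ih l.1 l.2
        have h3 := j.2
        have h4 := l.2
        simp only
        omega

end Pool.Agent.H82.CPE
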